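import Pool.Agent.X303.TBDual

/-!
# Étale motivic cohomology of top weight of smooth projective schemes over a finite field
-/

set_option autoImplicit false

namespace Pool.Agent.Zk51.EM

open Pool.Agent.W495.FM Pool.Agent.X303.TBDual

variable {Ω V : Type} [Field Ω]

/-- The groups `H i` are the étale motivic cohomology groups `H^i(X_et, ℤ(d))` of the smooth projective
scheme `X` of pure dimension `d` over a finite field.

* `top`: `H (2 d)` is finitely generated (finiteness of the group of zero-cycles of degree zero: Bloch,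
  Kato and Saito; Jannsen, Kerz and Saito).
* `seq`: for `i < 2 d`, the exact sequence `H^(i-1)(X_et, ℚ/ℤ(d)) → H^i(X_et, ℤ(d)) → H^i(X, ℚ(d))`, where
  `H^i(X, ℚ(d)) = M X (2 d - i) 0`, and where the first group is finite (Deligne, Gabber; the weights of
  `H^j(X̄, ℚ_ℓ(d))` are not zero for `j < 2 d`, and the corresponding facts for `p`-torsion). For `i < 0`
  the first group is zero (`neg`).
-/
structure IsEtaleTop (T : Homology Ω V) (X : V) (d : ℤ) (H : ℤ → Type)
    [∀ i, AddCommGroup (H i)] : Prop where
  top : AddGroup.FG (H (2 * d))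
  seq : ∀ i < 2 * d, ∃ (Q : Type) (_ : AddCommGroup Q) (_ : Finite Q) (g : Q →+ H i)
    (f : H i → T.M X (2 * d - i) 0), IsAdd f ∧ ∀ x, f x = 0 → x ∈ Set.range g
  neg : ∀ i < 0, ∃ f : H i → T.M X (2 * d - i) 0, IsAdd f ∧ Function.Injective f

/-- The assertion of the question for `X`, in a more precise form: the groups are finitely generated in
degrees at most `2 d`, finite in degrees less than `2 d`, and zero in negative degrees. -/
def HoldsFor (d : ℤ) (H : ℤ → Type) [∀ i, AddCommGroup (H i)] : Prop :=
  (∀ i ≤ 2 * d, AddGroup.FG (H i)) ∧ (∀ i < 2 * d, Finite (H i)) ∧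
    ∀ i < 0, i < 2 * d → ∀ x : H i, x = 0

/-- Finite generation of étale motivic cohomology of top weight. -/
theorem holdsFor {T : Homology Ω V} [CharZero Ω] {X : V} (hT : IsHomology T) (h : TB T X)
    (hX : IsPure T X) {d : ℤ} {H : ℤ → Type} [∀ i, AddCommGroup (H i)]
    (hH : IsEtaleTop T X d H) : HoldsFor d H := by
  have hz : ∀ i < 2 * d, ∀ x : T.M X (2 * d - i) 0, x = 0 := fun i hi x =>
    parshin hT h hX (by omega) x
  have hfin : ∀ i < 2 * d, Finite (H i) := by
    intro i hi
    obtain ⟨Q, _, _, g, f, -, hf⟩ := hH.seq i hi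
    exact Finite.of_surjective g fun x => hf x (hz i hi (f x))
  refine ⟨fun i hi => ?_, hfin, fun i hi hd x => ?_⟩
  · rcases lt_or_eq_of_le hi with h1 | h1
    · have := hfin i h1
      infer_instance
    · subst h1
      exact hH.top
  · obtain ⟨f, hf, hinj⟩ := hH.neg i hi
    apply hinj
    rw [hz i hd (f x), hz i hd (f 0)]

end Pool.Agent.Zk51.EM
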